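import Pool.Agent.W295.PR.Stm

/-!
# PR-PDEG: bounded degree maps have bounded degree images in commutative groups
-/

set_option autoImplicit false

namespace Pool.Agent.W160.PR.PDEG

open Pool.Agent.W295.PR

theorem lcsF_bot {G : Type} [Group G] {s N i : ℕ} (hs : lcs G s = ⊥) (hN : 1 ≤ N)
    (hi : N * (s + 1) ≤ i) : lcsF G N i = ⊥ := by
  have h1 : s + 1 ≤ (i + N - 1) / N := by
    rw [Nat.le_div_iff_mul_le (by omega), Nat.mul_comm]
    omega
  have h2 : s ≤ (i + N - 1) / N - 1 := by omega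
  have h3 : lcs G ((i + N - 1) / N - 1) ≤ lcs G s := Subgroup.lowerCentralSeries_antitone ⊤ h2
  rw [hs] at h3
  exact le_bot_iff.1 h3

theorem aux {R : Type} [AddCommGroup R] {G : Type} [Group G] {N s : ℕ} (hN : 1 ≤ N)
    (hs : lcs G s = ⊥) (H : Subgroup G) {C : Type} [CommGroup C] (φ : H →* C) :
    ∀ (d l : ℕ) (f : R → G), N * (s + 1) ≤ l + d + 1 →
      (∀ n, IsPoly (RF1 R) (lcsF G N) n l f) → ∀ hf : ∀ x, f x ∈ H,
      PDeg d (fun x => φ ⟨f x, hf x⟩) := by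
  intro d
  induction d with
  | zero =>
    intro l f hl hP hf h x
    have h1 := (hP 1).2 1 le_rfl h (by
      unfold RF1
      rw [if_pos le_rfl]
      exact AddSubgroup.mem_top h)
    have h2 : dd h f x ∈ lcsF G N (l + 1) := h1 x
    rw [lcsF_bot hs hN (by omega), Subgroup.mem_bot] at h2
    have h3 : f (x + h) = f x := mul_inv_eq_one.1 h2
    have h4 : (⟨f (x + h), hf (x + h)⟩ : H) = ⟨f x, hf x⟩ := Subtype.ext h3
    show φ ⟨f (x + h), hf (x + h)⟩ = φ ⟨f x, hf x⟩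
    rw [h4]
  | succ d ih =>
    intro l f hl hP hf h
    have h1 : ∀ n, IsPoly (RF1 R) (lcsF G N) n (l + 1) (dd h f) := by
      intro n
      exact (hP (n + 1)).2 1 le_rfl h (by
        unfold RF1
        rw [if_pos le_rfl]
        exact AddSubgroup.mem_top h)
    have hf' : ∀ x, dd h f x ∈ H := fun x => H.mul_mem (hf _) (H.inv_mem (hf x))
    have h2 := ih (l + 1) (dd h f) (by omega) h1 hf'
    have h3 : (fun x => φ ⟨f (x + h), hf (x + h)⟩ * (φ ⟨f x, hf x⟩)⁻¹) =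
        fun x => φ ⟨dd h f x, hf' x⟩ := by
      funext x
      rw [← map_inv, ← map_mul]
      rfl
    show PDeg d (fun x => φ ⟨f (x + h), hf (x + h)⟩ * (φ ⟨f x, hf x⟩)⁻¹)
    rw [h3]
    exact h2

theorem main : S_PDEG := by
  intro R _ G _ N hN hG
  obtain ⟨s, hs⟩ : ∃ s, lcs G s = ⊥ := by
    obtain ⟨s, hs⟩ := Subgroup.nilpotent_iff_lowerCentralSeries.1 hG
    exact ⟨s, hs⟩
  refine ⟨N * (s + 1), fun f hf H C _ pr hpr hH => ?_⟩
  exact aux hN hs H (MonoidHom.mk' pr hpr) (N * (s + 1)) 0 f (by omega) hf hH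

end Pool.Agent.W160.PR.PDEG
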